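import Pool.Agent.Work.MP_bd2dcc_nt.SY.CountA

/-!
# Counting the omitted primes
-/

set_option autoImplicit false

namespace Pool.Agent.Work.MP_bd2dcc_nt.SY

open Finset

/-- a vector of gaps followed by one more gap -/
def ext {J : ℕ} (w : Fin J → ℕ) (v : ℕ) : ℕ → ℕ := fun i => if h : i < J then w ⟨i, h⟩ else v

/-- the shifts -/
def shifts {J : ℕ} (w : Fin J → ℕ) (v : ℕ) : Finset ℕ :=
  (range (J + 2)).image fun j => ∑ i ∈ range j, ext w v i

theorem ext_sum {J : ℕ} (w : Fin J → ℕ) (v : ℕ) :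
    ∑ i ∈ range (J + 1), ext w v i = ∑ j, w j + v := by
  rw [sum_range_succ, ← Fin.sum_univ_eq_sum_range]
  congr 1
  · refine sum_congr rfl fun j _ => ?_
    unfold ext
    rw [dif_pos j.2]
  · unfold ext
    rw [dif_neg (lt_irrefl J)]

theorem shifts_card {J : ℕ} {w : Fin J → ℕ} {v : ℕ} (hw : ∀ j, 0 < w j) (hv : 0 < v) :
    #(shifts w v) = J + 2 := by
  unfold shifts
  rw [card_image_of_injOn, card_range]
  have hpos : ∀ i, 0 < ext w v i := by
    intro i
    unfold ext
    split_ifs
    · exact hw _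
    · exact hv
  have hmono : StrictMono fun j => ∑ i ∈ range j, ext w v i := by
    refine strictMono_nat_of_lt_succ fun j => ?_
    rw [sum_range_succ]
    exact Nat.lt_add_of_pos_right (hpos j)
  exact hmono.injective.injOn

theorem shifts_le {J : ℕ} {w : Fin J → ℕ} {v : ℕ} {h : ℕ} (hh : h ∈ shifts w v) :
    h ≤ ∑ j, w j + v := by
  unfold shifts at hh
  obtain ⟨j, hj, rfl⟩ := mem_image.1 hh
  rw [← ext_sum]
  exact sum_le_sum_of_subset (range_subset_range.2 (by have := mem_range.1 hj; omega))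

theorem tele {J : ℕ} (Z : ℕ → ℕ) (hZ : ∀ j < J, Z j < Z (j + 1)) (v : ℕ) :
    ∀ j ≤ J, Z 0 + ∑ i ∈ range j, ext (fun j : Fin J => Z (j + 1) - Z j) v i = Z j := by
  intro j
  induction j with
  | zero => intro _; simp
  | succ j ih =>
    intro hj
    rw [sum_range_succ, ← Nat.add_assoc, ih (by omega)]
    unfold ext
    rw [dif_pos (by omega : j < J)]
    simp only
    have := hZ j (by omega)
    omega

/-- the number of omitted indices all of whose gaps are bounded -/
theorem short_count (J L D X : ℕ) (f : Fin L → (Fin J → ℕ) → ℕ) (T : ℝ) (hT0 : 0 ≤ T)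
    (hT : ∀ H : Finset ℕ, #H = J + 2 → (∀ h ∈ H, h ≤ D) →
      (#((range (X + 1)).filter fun n => ∀ h ∈ H, (n + h).Prime) : ℝ) ≤ T)
    (q : ℕ → ℕ) (hq : StrictMono q) (hqp : ∀ i, (q i).Prime) (A : Finset ℕ)
    (hA : ∀ i ∈ A, q i ≤ X ∧ ∃ (Z : ℕ → ℕ) (l : Fin L), (∀ j ≤ J, ∃ m, Z j = q m) ∧
      (∀ j < J, Z j < Z (j + 1)) ∧ Z J < q i ∧ q i ≤ Z 0 + D ∧
      q i - Z J = f l (fun j => Z (j + 1) - Z j)) :
    (#A : ℝ) ≤ L * D ^ J * T := by
  classical
  rcases A.eq_empty_or_nonempty with rfl | hAne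
  · simp
    positivity
  obtain ⟨i₀, hi₀⟩ := hAne
  have hne : Nonempty (Fin L) := by
    obtain ⟨_, _, l, _⟩ := hA i₀ hi₀
    exact ⟨l⟩
  choose! hX Z l hZp hZm hZq hZD hZf using hA
  set φ : ℕ → Fin L × (Fin J → ℕ) := fun i => (l i, fun j : Fin J => Z i (j + 1) - Z i j) with hφ
  have htele := fun i (hi : i ∈ A) (v : ℕ) => tele (J := J) (Z i) (hZm i hi) v
  have hlast : ∀ i ∈ A, q i = Z i 0 + ∑ j ∈ range (J + 1),
      ext (fun j : Fin J => Z i (j + 1) - Z i j) (f (l i) (fun j => Z i (j + 1) - Z i j)) j := by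
    intro i hi
    rw [sum_range_succ, ← Nat.add_assoc, htele i hi _ J le_rfl]
    unfold ext
    rw [dif_neg (lt_irrefl J), ← hZf i hi]
    have := hZq i hi
    omega
  have hmaps : ∀ i ∈ A, φ i ∈ (univ : Finset (Fin L)) ×ˢ
      Fintype.piFinset (fun _ : Fin J => Icc 1 D) := by
    intro i hi
    rw [mem_product]
    refine ⟨mem_univ _, Fintype.mem_piFinset.2 fun j => ?_⟩
    rw [hφ, mem_Icc]
    simp only
    have h1 := hZm i hi j j.2
    have h2 : Z i (j + 1) ≤ Z i J := by
      have h3 : ∀ a b, a ≤ b → b ≤ J → Z i a ≤ Z i b := by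
        intro a b hab
        induction b, hab using Nat.le_induction with
        | base => intro _; exact le_rfl
        | succ b _ ih => intro hb; exact (ih (by omega)).trans (hZm i hi b (by omega)).le
      exact h3 _ _ j.2 le_rfl
    have h4 : Z i 0 ≤ Z i j := by
      have h3 : ∀ b, b ≤ J → Z i 0 ≤ Z i b := by
        intro b
        induction b with
        | zero => intro _; exact le_rfl
        | succ b ih => intro hb; exact (ih (by omega)).trans (hZm i hi b (by omega)).le
      exact h3 _ j.2.le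
    have h5 := hZq i hi
    have h6 := hZD i hi
    omega
  have hcard := card_eq_sum_card_fiberwise (f := φ) hmaps
  have hfib : ∀ b ∈ (univ : Finset (Fin L)) ×ˢ Fintype.piFinset (fun _ : Fin J => Icc 1 D),
      (#(A.filter fun i => φ i = b) : ℝ) ≤ T := by
    intro b _
    rcases (A.filter fun i => φ i = b).eq_empty_or_nonempty with he | ⟨i₁, hi₁⟩
    · rw [he, card_empty, Nat.cast_zero]; exact hT0
    rw [mem_filter] at hi₁
    obtain ⟨hi₁A, hi₁b⟩ := hi₁
    obtain ⟨l₀, w₀⟩ := b
    have hb : ∀ i ∈ A, φ i = (l₀, w₀) → l i = l₀ ∧ (fun j : Fin J => Z i (j + 1) - Z i j) = w₀ := by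
      intro i _ h
      rw [hφ] at h
      simp only [Prod.mk.injEq] at h
      exact h
    have hb₁ := hb i₁ hi₁A hi₁b
    have hv : 0 < f l₀ w₀ := by
      have h1 := hZf i₁ hi₁A
      rw [hb₁.1, hb₁.2] at h1
      have h2 := hZq i₁ hi₁A
      omega
    have hw : ∀ j, 0 < w₀ j := by
      intro j
      rw [← hb₁.2]
      have := hZm i₁ hi₁A j j.2
      simp only
      omega
    have hsumD : ∑ j, w₀ j + f l₀ w₀ ≤ D := by
      rw [← ext_sum]
      have h1 := hlast i₁ hi₁A
      rw [hb₁.1, hb₁.2] at h1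
      have h2 := hZD i₁ hi₁A
      omega
    have hTH := hT (shifts w₀ (f l₀ w₀)) (shifts_card hw hv)
      (fun h hh => (shifts_le hh).trans hsumD)
    refine le_trans ?_ hTH
    have hle : #(A.filter fun i => φ i = (l₀, w₀)) ≤
        #((range (X + 1)).filter fun n => ∀ h ∈ shifts w₀ (f l₀ w₀), (n + h).Prime) := by
      refine card_le_card_of_injOn (fun i => Z i 0) (fun i hi => ?_) (fun i hi i' hi' heq => ?_)
      · rw [mem_coe, mem_filter] at hi
        obtain ⟨hiA, hib⟩ := hi
        have hbi := hb i hiA hib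
        rw [mem_coe, mem_filter, mem_range]
        have hl := hlast i hiA
        refine ⟨by have := hX i hiA; simp only; omega, fun h hh => ?_⟩
        unfold shifts at hh
        obtain ⟨j, hj, rfl⟩ := mem_image.1 hh
        rw [mem_range] at hj
        rcases Nat.lt_or_ge J j with hlt | hge
        · have hj' : j = J + 1 := by omega
          rw [hbi.1, hbi.2] at hl
          rw [hj', ← hl]
          exact hqp i
        · have h1 := htele i hiA (f l₀ w₀) j hge
          rw [hbi.2] at h1
          rw [h1]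
          obtain ⟨m, hm⟩ := hZp i hiA j hge
          rw [hm]
          exact hqp m
      · rw [mem_coe, mem_filter] at hi hi'
        have hbi := hb i hi.1 hi.2
        have hbi' := hb i' hi'.1 hi'.2
        have hl := hlast i hi.1
        have hl' := hlast i' hi'.1
        rw [hbi.1, hbi.2] at hl
        rw [hbi'.1, hbi'.2] at hl'
        simp only at heq
        rw [heq, ← hl'] at hl
        exact hq.injective hl
    exact_mod_cast hle
  rw [hcard]
  push_cast
  refine (sum_le_sum hfib).trans ?_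
  rw [sum_const, nsmul_eq_mul, card_product, Fintype.card_piFinset]
  simp

end Pool.Agent.Work.MP_bd2dcc_nt.SY
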