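import Pool.Agent.Work.MP_bd2dcc_nt.SY.TupB

/-!
# The upper bound for prime tuples with the parameters chosen
-/

set_option autoImplicit false

namespace Pool.Agent.Work.MP_bd2dcc_nt.SY

open Finset

theorem tup (k : ℕ) (hk : 1 ≤ k) : ∃ (C : ℝ) (X₀ : ℕ), 0 < C ∧ ∀ X : ℕ, X₀ ≤ X →
    ∀ H : Finset ℕ, #H = k → (∀ h ∈ H, (h : ℝ) ≤ Real.log X ^ 3) →
    (#((range (X + 1)).filter (fun n => ∀ h ∈ H, (n + h).Prime)) : ℝ) ≤
      C * X * (Real.log (Real.log X)) ^ k / Real.log X ^ k := by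
  obtain ⟨C, e, hC, hraw⟩ := tup_raw k hk
  obtain ⟨T, hT⟩ : ∃ T : ℝ, T = (e : ℝ) + 1 := ⟨_, rfl⟩
  have hT1 : 1 ≤ T := by rw [hT]; have : (0 : ℝ) ≤ e := Nat.cast_nonneg _; linarith
  have hT0 : 0 < T := by linarith
  have ev1 : ∀ᶠ x : ℝ in Filter.atTop, Real.log x ^ k ≤ x ^ (1 / T) := by
    have h := (isLittleO_log_rpow_rpow_atTop (k : ℝ) (show (0 : ℝ) < 1 / T by positivity)).def
      one_pos
    filter_upwards [h, Filter.eventually_ge_atTop 3] with x hx hx3
    have hl : 0 ≤ Real.log x := Real.log_nonneg (by linarith)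
    rw [Real.rpow_natCast, one_mul, Real.norm_of_nonneg (by positivity),
      Real.norm_of_nonneg (by positivity)] at hx
    exact hx
  have ev2 : ∀ᶠ x : ℝ in Filter.atTop, 6 ≤ x ^ (1 / T) :=
    (tendsto_rpow_atTop (show (0 : ℝ) < 1 / T by positivity)).eventually_ge_atTop 6
  have ev3 : ∀ᶠ x : ℝ in Filter.atTop, 1 ≤ Real.log (Real.log x) :=
    (Real.tendsto_log_atTop.comp Real.tendsto_log_atTop).eventually_ge_atTop 1
  have ev4 : ∀ᶠ x : ℝ in Filter.atTop, 2 * T ≤ Real.log x :=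
    Real.tendsto_log_atTop.eventually_ge_atTop _
  have ev := (tendsto_natCast_atTop_atTop (R := ℝ)).eventually
    (ev1.and (ev2.and (ev3.and (ev4.and (Filter.eventually_ge_atTop 3)))))
  obtain ⟨X₀, hX₀⟩ := Filter.eventually_atTop.1 ev
  refine ⟨2 * C * (4 * T) ^ k + 1, X₀, by positivity, fun X hX H hcard hH => ?_⟩
  obtain ⟨h1, h2, h3, h4, h5⟩ := hX₀ X hX
  have hX0 : (0 : ℝ) < X := by linarith
  obtain ⟨w, hw⟩ : ∃ w : ℝ, w = (X : ℝ) ^ (1 / T) := ⟨_, rfl⟩
  rw [← hw] at h1 h2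
  obtain ⟨z, hz⟩ : ∃ z : ℕ, z = ⌊w⌋₊ := ⟨_, rfl⟩
  have hz1 : (z : ℝ) ≤ w := by rw [hz]; exact Nat.floor_le (by linarith)
  have hz2 : w < z + 1 := by rw [hz]; exact Nat.lt_floor_add_one w
  have hz3 : 3 ≤ z := by
    have : (2 : ℝ) < z := by linarith
    exact_mod_cast this
  have hz3' : (3 : ℝ) ≤ z := by exact_mod_cast hz3
  have hlogX : 1 ≤ Real.log X := by linarith
  have hraw' := hraw z X hz3 (Real.log X) hlogX H hcard hH
  -- z^e ≤ X / w
  have hwT : w ^ T = X := by
    rw [hw, ← Real.rpow_mul hX0.le, one_div, inv_mul_cancel₀ hT0.ne', Real.rpow_one]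
  have hze : (z : ℝ) ^ e ≤ X / Real.log X ^ k := by
    have hl0 : (0 : ℝ) < Real.log X ^ k := by positivity
    rw [le_div_iff₀ hl0]
    have h6 : (z : ℝ) ^ e ≤ w ^ e := pow_le_pow_left₀ (Nat.cast_nonneg _) hz1 e
    calc (z : ℝ) ^ e * Real.log X ^ k ≤ w ^ e * w :=
          mul_le_mul h6 h1 hl0.le (by positivity)
      _ = w ^ T := by
          rw [hT, Real.rpow_add (by linarith), Real.rpow_one, Real.rpow_natCast]
      _ = X := hwT
  -- log z
  have hlz : Real.log X / (2 * T) ≤ Real.log z := by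
    have h6 : w / 2 ≤ z := by linarith
    have h7 : Real.log (w / 2) ≤ Real.log z := Real.log_le_log (by linarith) h6
    rw [Real.log_div (by linarith) (by norm_num), hw, Real.log_rpow hX0] at h7
    have h8 := Real.log_two_lt_d9
    have h9 : Real.log X / (2 * T) = 1 / T * Real.log X / 2 := by field_simp
    have h10 : 1 ≤ 1 / T * Real.log X / 2 := by
      rw [← h9, le_div_iff₀ (by positivity)]
      linarith
    rw [h9]
    have h11 : 1 / T * Real.log X / 2 + 1 / T * Real.log X / 2 = 1 / T * Real.log X := by ring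
    linarith
  have hlz0 : 0 < Real.log z := lt_of_lt_of_le (by positivity) hlz
  have hratio : (1 + Real.log (Real.log X)) / Real.log z ≤
      4 * T * (Real.log (Real.log X) / Real.log X) := by
    rw [div_le_iff₀ hlz0]
    have h6 : 1 + Real.log (Real.log X) ≤ 2 * Real.log (Real.log X) := by linarith
    have h7 : 2 * Real.log (Real.log X) =
        4 * T * (Real.log (Real.log X) / Real.log X) * (Real.log X / (2 * T)) := by
      field_simp
      ring
    refine h6.trans ?_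
    rw [h7]
    exact mul_le_mul_of_nonneg_left hlz (by positivity)
  have hpow : ((1 + Real.log (Real.log X)) / Real.log z) ^ k ≤
      (4 * T) ^ k * (Real.log (Real.log X) ^ k / Real.log X ^ k) := by
    rw [← div_pow, ← mul_pow]
    exact pow_le_pow_left₀ (by positivity) hratio k
  have hX1 : (X : ℝ) + 1 ≤ 2 * X := by linarith
  have hlast : (X : ℝ) / Real.log X ^ k ≤ X * (Real.log (Real.log X) ^ k / Real.log X ^ k) := by
    rw [← mul_div_assoc]
    apply div_le_div_of_nonneg_right _ (by positivity)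
    exact le_mul_of_one_le_right hX0.le (one_le_pow₀ h3)
  calc (#((range (X + 1)).filter (fun n => ∀ h ∈ H, (n + h).Prime)) : ℝ)
      ≤ C * (X + 1) * ((1 + Real.log (Real.log X)) / Real.log z) ^ k + (z : ℝ) ^ e := hraw'
    _ ≤ C * (2 * X) * ((4 * T) ^ k * (Real.log (Real.log X) ^ k / Real.log X ^ k)) +
        X * (Real.log (Real.log X) ^ k / Real.log X ^ k) := by
        refine add_le_add ?_ (hze.trans hlast)
        refine mul_le_mul (mul_le_mul_of_nonneg_left hX1 hC.le) hpow (by positivity) (by positivity)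
    _ = _ := by ring

end Pool.Agent.Work.MP_bd2dcc_nt.SY
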