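import Pool.Agent.Work.MP_bd2dcc_nt.SY.Greedy
import Pool.Agent.Work.MP_bd2dcc_nt.SY.TupC
import Pool.Agent.Work.MP_bd2dcc_nt.SY.CountB

/-!
# Relations between consecutive gaps can be avoided
-/

set_option autoImplicit false

namespace Pool.Agent.Work.MP_bd2dcc_nt.SY

open Finset

theorem between (u : ℕ → ℕ) (hu : StrictMono u) (h0 : u 0 = 0) (i : ℕ) (hi : ∀ n, u n ≠ i) :
    ∃ n, u n < i ∧ i < u (n + 1) := by
  classical
  have hex : ∃ m, i < u m := ⟨i + 1, by
    have := hu.id_le (i + 1)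
    simp only [id] at this
    omega⟩
  have h1 : Nat.find hex ≠ 0 := by
    intro h
    have := Nat.find_spec hex
    rw [h, h0] at this
    omega
  obtain ⟨n, hn⟩ : ∃ n, Nat.find hex = n + 1 := ⟨Nat.find hex - 1, by omega⟩
  refine ⟨n, ?_, ?_⟩
  · have h2 := Nat.find_min hex (m := n) (by omega)
    have := hi n
    omega
  · rw [← hn]
    exact Nat.find_spec hex

/-- the number of omitted primes, with the parameter `D` -/
theorem omitted (J L D X : ℕ) (hD : 0 < D) (f : Fin L → (Fin J → ℕ) → ℕ) (T : ℝ) (hT0 : 0 ≤ T)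
    (hT : ∀ H : Finset ℕ, #H = J + 2 → (∀ h ∈ H, h ≤ D) →
      (#((range (X + 1)).filter fun n => ∀ h ∈ H, (n + h).Prime) : ℝ) ≤ T)
    (q : ℕ → ℕ) (hq : StrictMono q) (hqp : ∀ i, (q i).Prime) (u : ℕ → ℕ) (hu : StrictMono u)
    (h0 : u 0 = 0) (hstep : ∀ n, u (n + 1) ≤ u n + (L + 1))
    (hskip : ∀ n i, u n < i → i < u (n + 1) → J ≤ n ∧ ∃ l : Fin L,
      q i - q (u n) = f l (fun j : Fin J => q (u (n - J + j + 1)) - q (u (n - J + j))))
    (A : Finset ℕ) (hA : ∀ i ∈ A, q i ≤ X ∧ ∀ n, u n ≠ i) :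
    (#A : ℝ) ≤ L * D ^ J * T + L * ((J + 1) * X / D + 1) := by
  classical
  have hex : ∀ i, ∃ n, i ∈ A → u n < i ∧ i < u (n + 1) := by
    intro i
    by_cases hi : i ∈ A
    · obtain ⟨n, hn⟩ := between u hu h0 i (hA i hi).2
      exact ⟨n, fun _ => hn⟩
    · exact ⟨0, fun h => absurd h hi⟩
  choose ν hν using hex
  have hs : StrictMono fun n => q (u n) := hq.comp hu
  have h1 := short_count J L D X f T hT0 hT q hq hqp
    (A.filter fun i => q i ≤ q (u (ν i - J)) + D) (fun i hi => by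
      rw [mem_filter] at hi
      obtain ⟨hiA, hiD⟩ := hi
      obtain ⟨hn1, hn2⟩ := hν i hiA
      obtain ⟨hJ, l, hl⟩ := hskip (ν i) i hn1 hn2
      have e1 : ν i - J + J = ν i := Nat.sub_add_cancel hJ
      refine ⟨(hA i hiA).1, fun j => q (u (ν i - J + j)), l, fun j _ => ⟨u (ν i - J + j), rfl⟩,
        fun j _ => hs (by omega : ν i - J + j < ν i - J + (j + 1)), ?_, hiD, ?_⟩
      · simp only
        rw [e1]
        exact hq hn1
      · simp only
        rw [e1, hl]
        rfl)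
  have h2 : (#(A.filter fun i => ¬ q i ≤ q (u (ν i - J)) + D) : ℝ) ≤ L * ((J + 1) * X / D + 1) := by
    have h3 := long_count (fun n => q (u n)) hs J D X hD
    have h4 : #(A.filter fun i => ¬ q i ≤ q (u (ν i - J)) + D) ≤
        L * #((range (X + 1)).filter fun n => J ≤ n ∧ q (u n) ≤ X ∧
          q (u (n - J)) + D < q (u (n + 1))) := by
      refine card_le_mul_card_image_of_maps_to (f := ν) (fun i hi => ?_) L (fun n _ => ?_)
      · rw [mem_filter] at hi
        obtain ⟨hiA, hiD⟩ := hi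
        obtain ⟨hn1, hn2⟩ := hν i hiA
        obtain ⟨hJ, _⟩ := hskip (ν i) i hn1 hn2
        have h5 := hq hn1
        have h6 := hq hn2
        have h7 := (hA i hiA).1
        have h8 := hs.id_le (ν i)
        simp only [id] at h8
        rw [mem_filter, mem_range]
        refine ⟨by omega, hJ, by omega, by omega⟩
      · have hsub : ((A.filter fun i => ¬ q i ≤ q (u (ν i - J)) + D).filter fun i => ν i = n) ⊆
            Ioo (u n) (u (n + 1)) := by
          intro i hi
          rw [mem_filter, mem_filter] at hi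
          have := hν i hi.1.1
          rw [hi.2] at this
          exact mem_Ioo.2 this
        refine (card_le_card hsub).trans ?_
        rw [Nat.card_Ioo]
        have := hstep n
        omega
    have h5 : (#(A.filter fun i => ¬ q i ≤ q (u (ν i - J)) + D) : ℝ) ≤
        L * (#((range (X + 1)).filter fun n => J ≤ n ∧ q (u n) ≤ X ∧
          q (u (n - J)) + D < q (u (n + 1))) : ℝ) := by exact_mod_cast h4
    exact h5.trans (mul_le_mul_of_nonneg_left h3 (Nat.cast_nonneg _))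
  have h3 := card_filter_add_card_filter_not (s := A) (fun i => q i ≤ q (u (ν i - J)) + D)
  have h4 : (#A : ℝ) = #(A.filter fun i => q i ≤ q (u (ν i - J)) + D) +
      #(A.filter fun i => ¬ q i ≤ q (u (ν i - J)) + D) := by exact_mod_cast h3.symm
  rw [h4]
  exact add_le_add h1 h2

theorem avoid (J L : ℕ) (f : Fin L → (Fin J → ℕ) → ℕ) : ∃ u : ℕ → ℕ, StrictMono u ∧ u 0 = 0 ∧
    (∀ n, u (n + 1) ≤ u n + (L + 1)) ∧
    (∀ (n : ℕ) (l : Fin L), Nat.nth Nat.Prime (u (n + J + 1)) - Nat.nth Nat.Prime (u (n + J)) ≠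
      f l (fun j => Nat.nth Nat.Prime (u (n + j + 1)) - Nat.nth Nat.Prime (u (n + j)))) ∧
    ∃ (C : ℝ) (X₀ : ℕ), ∀ X : ℕ, X₀ ≤ X →
      (Set.ncard {i : ℕ | Nat.nth Nat.Prime i ≤ X ∧ i ∉ Set.range u} : ℝ) ≤
        C * X * Real.log (Real.log X) ^ (J + 2) / Real.log X ^ (1 + 1 / ((J : ℝ) + 1)) := by
  classical
  have hq : StrictMono (Nat.nth Nat.Prime) := Nat.nth_strictMono Nat.infinite_setOf_prime
  have hqp : ∀ i, (Nat.nth Nat.Prime i).Prime := fun i => Nat.prime_nth_prime i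
  set q := Nat.nth Nat.Prime with hqdef
  set Φ : ℕ → (ℕ → ℕ) → Finset ℕ := fun n w => if J ≤ n then univ.image (fun l : Fin L =>
    f l (fun j : Fin J => q (w (n - J + j + 1)) - q (w (n - J + j)))) else ∅ with hΦ
  obtain ⟨u, hu, h0, hall⟩ := greedy q hq L Φ (fun n w => by
      rw [hΦ]
      simp only
      split_ifs
      · exact card_image_le.trans (by rw [card_univ, Fintype.card_fin])
      · rw [card_empty]; omega) (fun n w w' hw => by
      rw [hΦ]
      simp only
      split_ifs with hJ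
      · congr 1
        funext l
        congr 1
        funext j
        rw [hw _ (by have := j.2; omega), hw _ (by have := j.2; omega)]
      · rfl)
  refine ⟨u, hu, h0, fun n => (hall n).1, fun n l => ?_, ?_⟩
  · have h1 := (hall (n + J)).2.1
    rw [hΦ] at h1
    simp only at h1
    rw [if_pos (Nat.le_add_left J n), Nat.add_sub_cancel] at h1
    intro heq
    apply h1
    rw [heq]
    exact mem_image.2 ⟨l, mem_univ _, rfl⟩
  · have hskip : ∀ n i, u n < i → i < u (n + 1) → J ≤ n ∧ ∃ l : Fin L,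
        q i - q (u n) = f l (fun j : Fin J => q (u (n - J + j + 1)) - q (u (n - J + j))) := by
      intro n i hi1 hi2
      have h1 := (hall n).2.2 i hi1 hi2
      rw [hΦ] at h1
      simp only at h1
      split_ifs at h1 with hJ
      · obtain ⟨l, _, hl⟩ := mem_image.1 h1
        exact ⟨hJ, l, hl.symm⟩
      · exact absurd h1 (notMem_empty _)
    obtain ⟨C, X₁, hC, htup⟩ := tup (J + 2) (by omega)
    have hJ0 : (0 : ℝ) ≤ J := Nat.cast_nonneg _
    have hL0 : (0 : ℝ) ≤ L := Nat.cast_nonneg _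
    obtain ⟨θ, hθ⟩ : ∃ θ : ℝ, θ = 1 + 1 / ((J : ℝ) + 1) := ⟨_, rfl⟩
    have hθ1 : 1 ≤ θ := by
      rw [hθ]
      have : 0 ≤ 1 / ((J : ℝ) + 1) := by positivity
      linarith
    have hθ2 : θ ≤ 2 := by
      rw [hθ]
      have : 1 / ((J : ℝ) + 1) ≤ 1 := by
        rw [div_le_one (by positivity)]
        linarith
      linarith
    have ev1 : ∀ᶠ x : ℝ in Filter.atTop, Real.log x ^ (2 : ℝ) ≤ x := by
      have h := (isLittleO_log_rpow_rpow_atTop (2 : ℝ) (show (0 : ℝ) < 1 by norm_num)).def one_pos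
      filter_upwards [h, Filter.eventually_ge_atTop 3] with x hx hx3
      have hl : 0 ≤ Real.log x := Real.log_nonneg (by linarith)
      rw [Real.rpow_one, one_mul, Real.norm_of_nonneg (by positivity),
        Real.norm_of_nonneg (by linarith)] at hx
      exact hx
    have ev3 : ∀ᶠ x : ℝ in Filter.atTop, 1 ≤ Real.log (Real.log x) :=
      (Real.tendsto_log_atTop.comp Real.tendsto_log_atTop).eventually_ge_atTop 1
    have ev4 : ∀ᶠ x : ℝ in Filter.atTop, 2 ≤ Real.log x :=
      Real.tendsto_log_atTop.eventually_ge_atTop _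
    have ev := (tendsto_natCast_atTop_atTop (R := ℝ)).eventually
      (ev1.and (ev3.and (ev4.and (Filter.eventually_ge_atTop 3))))
    obtain ⟨X₂, hX₂⟩ := Filter.eventually_atTop.1 ev
    refine ⟨L * C + L * (2 * (J + 1)) + L, max X₁ X₂, fun X hX => ?_⟩
    obtain ⟨g1, g2, g3, g4⟩ := hX₂ X ((le_max_right _ _).trans hX)
    have hX1 : X₁ ≤ X := (le_max_left _ _).trans hX
    rw [← hθ]
    have hX0 : (0 : ℝ) < X := by linarith
    obtain ⟨ℓ, hℓ⟩ : ∃ ℓ : ℝ, ℓ = Real.log X := ⟨_, rfl⟩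
    obtain ⟨m, hm⟩ : ∃ m : ℝ, m = Real.log ℓ := ⟨_, rfl⟩
    rw [← hℓ] at g1 g2 g3 ⊢
    rw [← hm] at g2 ⊢
    have hℓ0 : 0 < ℓ := by linarith
    obtain ⟨d, hd⟩ : ∃ d : ℝ, d = ℓ ^ θ := ⟨_, rfl⟩
    rw [← hd]
    have hd2 : 2 ≤ d := by
      rw [hd]
      calc (2 : ℝ) ≤ ℓ := g3
        _ = ℓ ^ (1 : ℝ) := (Real.rpow_one ℓ).symm
        _ ≤ ℓ ^ θ := Real.rpow_le_rpow_of_exponent_le (by linarith) hθ1
    have hd3 : d ≤ ℓ ^ (2 : ℝ) := by
      rw [hd]
      exact Real.rpow_le_rpow_of_exponent_le (by linarith) hθ2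
    have hd0 : 0 < d := by linarith
    have hdJ : d ^ (J + 1) = ℓ ^ (J + 2) := by
      rw [hd, ← Real.rpow_natCast, ← Real.rpow_mul hℓ0.le, ← Real.rpow_natCast]
      congr 1
      rw [hθ]
      push_cast
      field_simp
      ring
    obtain ⟨D, hD⟩ : ∃ D : ℕ, D = ⌊d⌋₊ := ⟨_, rfl⟩
    have hD1 : (D : ℝ) ≤ d := by rw [hD]; exact Nat.floor_le hd0.le
    have hD2 : d < D + 1 := by rw [hD]; exact Nat.lt_floor_add_one d
    have hD3 : d / 2 ≤ D := by linarith
    have hDpos : 0 < D := by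
      have : (0 : ℝ) < D := by linarith
      exact_mod_cast this
    have hDr : (0 : ℝ) < D := by exact_mod_cast hDpos
    obtain ⟨T, hT⟩ : ∃ T : ℝ, T = C * X * m ^ (J + 2) / ℓ ^ (J + 2) := ⟨_, rfl⟩
    have hm1 : 1 ≤ m := g2
    have hT0 : 0 ≤ T := by rw [hT]; positivity
    have hmain := omitted J L D X hDpos f T hT0 (fun H hH hHD => by
        have h1 := htup X hX1 H hH (fun h hh => by
          have h2 : (h : ℝ) ≤ D := by exact_mod_cast hHD h hh
          have h3 : ℓ ^ (2 : ℝ) ≤ ℓ ^ (3 : ℝ) :=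
            Real.rpow_le_rpow_of_exponent_le (by linarith) (by norm_num)
          have h4 : ℓ ^ (3 : ℝ) = ℓ ^ 3 := by
            rw [← Real.rpow_natCast]
            norm_num
          rw [← hℓ, ← h4]
          linarith)
        rw [← hℓ, ← hm, ← hT] at h1
        exact h1) q hq hqp u hu h0 (fun n => (hall n).1) hskip
      ((range (X + 1)).filter fun i => q i ≤ X ∧ i ∉ Set.range u) (fun i hi => by
        rw [mem_filter] at hi
        exact ⟨hi.2.1, fun n hn => hi.2.2 ⟨n, hn⟩⟩)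
    have hset : {i : ℕ | q i ≤ X ∧ i ∉ Set.range u} =
        (((range (X + 1)).filter fun i => q i ≤ X ∧ i ∉ Set.range u : Finset ℕ) : Set ℕ) := by
      ext i
      rw [mem_coe, mem_filter, mem_range]
      constructor
      · intro hi
        have h1 := hq.id_le i
        simp only [id] at h1
        have h2 : q i ≤ X := hi.1
        exact ⟨by omega, hi⟩
      · intro hi
        exact hi.2
    rw [hset, Set.ncard_coe_finset]
    refine hmain.trans ?_
    have hb1 : (D : ℝ) ^ J * T ≤ C * (X * m ^ (J + 2) / d) := by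
      have h1 : (D : ℝ) ^ J ≤ d ^ J := pow_le_pow_left₀ hDr.le hD1 J
      have h2 : d ^ J * T = C * (X * m ^ (J + 2) / d) := by
        rw [hT, ← hdJ, pow_succ d J]
        field_simp
      rw [← h2]
      exact mul_le_mul_of_nonneg_right h1 hT0
    have hmp : 1 ≤ m ^ (J + 2) := one_le_pow₀ hm1
    have hb2 : (X : ℝ) / D ≤ 2 * (X * m ^ (J + 2) / d) := by
      have h1 : (X : ℝ) / D ≤ X / (d / 2) := div_le_div_of_nonneg_left hX0.le (by positivity) hD3
      have h2 : (X : ℝ) / (d / 2) = 2 * (X / d) := by field_simp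
      have h3 : (X : ℝ) / d ≤ X * m ^ (J + 2) / d :=
        div_le_div_of_nonneg_right (le_mul_of_one_le_right hX0.le hmp) hd0.le
      linarith
    have hb3 : (1 : ℝ) ≤ X * m ^ (J + 2) / d := by
      rw [le_div_iff₀ hd0, one_mul]
      calc d ≤ ℓ ^ (2 : ℝ) := hd3
        _ ≤ X := g1
        _ ≤ X * m ^ (J + 2) := le_mul_of_one_le_right hX0.le hmp
    have e1 : ((J : ℝ) + 1) * X / D = (J + 1) * (X / D) := by ring
    have e2 : (L * C + L * (2 * (J + 1)) + L) * X * m ^ (J + 2) / d =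
        L * (C * (X * m ^ (J + 2) / d)) + L * ((J + 1) * (2 * (X * m ^ (J + 2) / d)) +
          X * m ^ (J + 2) / d) := by ring
    rw [e1, e2, mul_assoc (L : ℝ)]
    refine add_le_add (mul_le_mul_of_nonneg_left hb1 hL0) (mul_le_mul_of_nonneg_left ?_ hL0)
    refine add_le_add (mul_le_mul_of_nonneg_left hb2 (by positivity)) hb3

end Pool.Agent.Work.MP_bd2dcc_nt.SY
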