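import Pool.Agent.Work.MP_bd2dcc_nt.SY.Syn
import Pool.Agent.Work.MP_bd2dcc_nt.SY.Avoid

/-!
# Assembly
-/

set_option autoImplicit false

namespace Pool.Agent.Work.MP_bd2dcc_nt.SY

open Finset

theorem main (J L : ℕ) (f : Fin (L + 1) → (Fin J → ℕ) → ℕ) : ∃ u : ℕ → ℕ,
    StrictMono u ∧ u 0 = 0 ∧ (∀ n, u (n + 1) ≤ u n + (L + 2)) ∧
    (∀ (n : ℕ) (l : Fin (L + 1)),
      Nat.nth Nat.Prime (u (n + J + 1)) - Nat.nth Nat.Prime (u (n + J)) ≠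
        f l (fun j => Nat.nth Nat.Prime (u (n + j + 1)) - Nat.nth Nat.Prime (u (n + j)))) ∧
    (∃ (C : ℝ) (X₀ : ℕ), ∀ X : ℕ, X₀ ≤ X →
      (Set.ncard {i : ℕ | Nat.nth Nat.Prime i ≤ X ∧ i ∉ Set.range u} : ℝ) ≤
        C * X * Real.log (Real.log X) ^ (J + 2) / Real.log X ^ (1 + 1 / ((J : ℝ) + 1))) ∧
    (∀ m : ℕ, ∃ k : ℕ, 0 < k ∧ ∀ H : Finset ℕ, H.card = k →
      (∀ p : ℕ, p.Prime → ∃ a : ℕ, ∀ h ∈ H, ¬ p ∣ a + h) →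
      ∃ (X₀ : ℕ) (c₀ : ℝ), 0 < c₀ ∧ ∀ X : ℕ, X₀ ≤ X →
        c₀ * X / Real.log X ^ k ≤ (Set.ncard {t : ℕ | Nat.nth Nat.Prime (u (t + m)) ≤ X ∧
          ∃ n : ℕ, ∀ i ≤ m, ∃ h ∈ H, Nat.nth Nat.Prime (u (t + i)) = n + h} : ℝ)) ∧
    (∀ k m r : ℕ, ∃ (B κ X₀ : ℕ) (c₀ : ℝ), 0 < c₀ ∧ ∀ c : (Fin r → ℕ) → Fin k, ∃ i : Fin k,
      ∀ X : ℕ, X₀ ≤ X →
        c₀ * X / Real.log X ^ κ ≤ (Set.ncard {t : ℕ | Nat.nth Nat.Prime (u (t + m)) ≤ X ∧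
          Nat.nth Nat.Prime (u (t + m)) ≤ Nat.nth Nat.Prime (u t) + B ∧
          ∀ a : Fin (r + 1) → ℕ, StrictMono a → a (Fin.last r) ≤ m →
            c (fun j => Nat.nth Nat.Prime (u (t + a j.succ)) -
              Nat.nth Nat.Prime (u (t + a j.castSucc))) = i} : ℝ)) := by
  obtain ⟨u, hu, h0, hstep, havoid, hcount⟩ := avoid J (L + 1) f
  have h0' : u 0 < L + 2 := by omega
  refine ⟨u, hu, h0, hstep, havoid, hcount, fun m => ?_, fun k m r => ?_⟩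
  · obtain ⟨k, hk, h⟩ := mt_syn (L + 2) m
    refine ⟨k, hk, fun H hH hadm => ?_⟩
    obtain ⟨X₀, c₀, hc₀, h1⟩ := h H hH hadm
    exact ⟨X₀, c₀, hc₀, h1 u hu h0' hstep⟩
  · obtain ⟨B, κ, X₀, c₀, hc₀, h⟩ := forced (L + 2) k m r
    exact ⟨B, κ, X₀, c₀, hc₀, h u hu h0' hstep⟩

end Pool.Agent.Work.MP_bd2dcc_nt.SY
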