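import Mathlib

/-!
# Large gaps
-/

set_option autoImplicit false

namespace Pool.Agent.Work.MP_bd2dcc_nt.SY

open Finset

theorem sum_gaps (s : ℕ → ℕ) (hs : StrictMono s) (M : ℕ) :
    ∑ m ∈ range M, (s (m + 1) - s m) = s M - s 0 :=
  Finset.sum_range_tsub hs.monotone M

/-- the number of long stretches -/
theorem long_count (s : ℕ → ℕ) (hs : StrictMono s) (J D X : ℕ) (hD : 0 < D) :
    (#((range (X + 1)).filter fun n => J ≤ n ∧ s n ≤ X ∧ s (n - J) + D < s (n + 1)) : ℝ) ≤
      (J + 1) * X / D + 1 := by
  classical
  set N := (range (X + 1)).filter fun n => J ≤ n ∧ s n ≤ X ∧ s (n - J) + D < s (n + 1) with hN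
  set N' := N.filter fun n => s (n + 1) ≤ X with hN'
  have h1 : #N ≤ #N' + 1 := by
    have h2 : #(N.filter fun n => ¬ s (n + 1) ≤ X) ≤ 1 := by
      rw [card_le_one]
      intro a ha b hb
      rw [mem_filter, hN, mem_filter] at ha hb
      by_contra hne
      rcases Nat.lt_or_gt_of_ne hne with hlt | hlt
      · have h3 : s (a + 1) ≤ s b := hs.monotone hlt
        omega
      · have h3 : s (b + 1) ≤ s a := hs.monotone hlt
        omega
    have h3 := card_filter_add_card_filter_not (s := N) (fun n => s (n + 1) ≤ X)
    rw [← hN'] at h3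
    omega
  -- the sum over N'
  have h2 : #N' * D ≤ (J + 1) * X := by
    have h3 : ∀ n ∈ N', D ≤ ∑ e ∈ range (J + 1), (s (n - e + 1) - s (n - e)) := by
      intro n hn
      rw [hN', mem_filter, hN, mem_filter] at hn
      obtain ⟨⟨_, hJn, _, hlong⟩, _⟩ := hn
      have h4 : ∀ j, j ≤ n → ∑ e ∈ range (j + 1), (s (n - e + 1) - s (n - e)) =
          s (n + 1) - s (n - j) := by
        intro j
        induction j with
        | zero => intro _; simp
        | succ j ih =>
          intro hj
          rw [sum_range_succ, ih (by omega)]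
          have e1 : n - (j + 1) + 1 = n - j := by omega
          rw [e1]
          have h5 : s (n - (j + 1)) ≤ s (n - j) := hs.monotone (by omega)
          have h6 : s (n - j) ≤ s (n + 1) := hs.monotone (by omega)
          omega
      rw [h4 J hJn]
      omega
    obtain ⟨M, hM⟩ : ∃ M, ∀ m, s (m + 1) ≤ X ↔ m < M := by
      have hex : ∃ m, ¬ s (m + 1) ≤ X := ⟨X, by
        have := hs.id_le (X + 1)
        simp only [id] at this
        omega⟩
      refine ⟨Nat.find hex, fun m => ⟨fun h => ?_, fun h => ?_⟩⟩
      · by_contra hcon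
        have h5 : s (Nat.find hex + 1) ≤ s (m + 1) := hs.monotone (by omega)
        exact Nat.find_spec hex (h5.trans h)
      · by_contra hcon
        exact Nat.find_min hex h hcon
    have h5 : ∑ m ∈ range M, (s (m + 1) - s m) ≤ X := by
      rw [sum_gaps s hs]
      rcases Nat.eq_zero_or_pos M with h0 | h0
      · rw [h0]; omega
      · have := (hM (M - 1)).2 (by omega)
        rw [Nat.sub_add_cancel h0] at this
        omega
    calc #N' * D = ∑ _n ∈ N', D := by rw [sum_const, smul_eq_mul]
      _ ≤ ∑ n ∈ N', ∑ e ∈ range (J + 1), (s (n - e + 1) - s (n - e)) := sum_le_sum h3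
      _ = ∑ e ∈ range (J + 1), ∑ n ∈ N', (s (n - e + 1) - s (n - e)) := sum_comm
      _ ≤ ∑ _e ∈ range (J + 1), X := by
          refine sum_le_sum fun e he => ?_
          rw [mem_range] at he
          have hinj : Set.InjOn (fun n : ℕ => n - e) N' := by
            intro a ha b hb hab
            rw [mem_coe, hN', mem_filter, hN, mem_filter] at ha hb
            simp only at hab
            omega
          calc ∑ n ∈ N', (s (n - e + 1) - s (n - e))
              = ∑ m ∈ N'.image (fun n : ℕ => n - e), (s (m + 1) - s m) := by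
                rw [sum_image hinj]
            _ ≤ ∑ m ∈ range M, (s (m + 1) - s m) := by
                refine sum_le_sum_of_subset fun m hm => ?_
                obtain ⟨n, hn, rfl⟩ := mem_image.1 hm
                rw [hN', mem_filter] at hn
                rw [mem_range, ← hM]
                exact (hs.monotone (by omega)).trans hn.2
            _ ≤ X := h5
      _ = (J + 1) * X := by rw [sum_const, card_range, smul_eq_mul]
  have hD' : (0 : ℝ) < D := by exact_mod_cast hD
  have h3 : (#N' : ℝ) ≤ (J + 1) * X / D := by
    rw [le_div_iff₀ hD']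
    exact_mod_cast h2
  have h4 : (#N : ℝ) ≤ #N' + 1 := by exact_mod_cast h1
  linarith

end Pool.Agent.Work.MP_bd2dcc_nt.SY
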