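import Mathlib

/-!
# Chinese remainder theorem for an admissible set of positions
-/

set_option autoImplicit false

namespace Pool.Agent.Work.MP_bd2dcc_nt.SY

open Finset

/-- admissible sets -/
def Adm (H : Finset ℕ) : Prop := ∀ p : ℕ, p.Prime → ∃ a : ℕ, ∀ h ∈ H, ¬ p ∣ a + h

private noncomputable def qq (B h : ℕ) : ℕ := Nat.nth Nat.Prime (B + h)

private theorem qq_prime (B h : ℕ) : (qq B h).Prime :=
  Nat.nth_mem_of_infinite Nat.infinite_setOfPred_prime _

private theorem qq_lt (B h : ℕ) : B + h < qq B h := by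
  have := Nat.add_two_le_nth_prime (B + h)
  unfold qq
  omega

private theorem qq_count (B h : ℕ) : Nat.count Nat.Prime (qq B h) = B + h := by
  unfold qq
  exact Nat.count_nth_of_infinite Nat.infinite_setOfPred_prime _

theorem crt3 (R D₀ : ℕ) (H : Finset ℕ) (hH : ∀ h ∈ H, h < R) (hadm : Adm H) :
    ∃ W v : ℕ, 0 < W ∧ primorial D₀ ∣ W ∧ (∀ h ∈ H, Nat.Coprime (v + h) W) ∧
      (∀ h < R, h ∉ H → ∃ p : ℕ, p.Prime ∧ p ∣ W ∧ p ∣ v + h) := by
  classical
  choose! b hb using hadm
  set Q : ℕ → ℕ := qq (R + D₀) with hQdef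
  have hQp : ∀ h, (Q h).Prime := fun h => qq_prime _ h
  have hQlt : ∀ h, R + D₀ + h < Q h := fun h => qq_lt _ h
  have hQc : ∀ h, Nat.count Nat.Prime (Q h) = R + D₀ + h := fun h => qq_count _ h
  set P₀ : Finset ℕ := (range (D₀ + 1)).filter Nat.Prime with hP₀
  set P₁ : Finset ℕ := ((range R).filter fun h => h ∉ H).image Q with hP₁
  set t : Finset ℕ := P₀ ∪ P₁ with ht
  set a : ℕ → ℕ := fun p => if p ≤ D₀ then b p else p - (Nat.count Nat.Prime p - (R + D₀)) with ha
  have htp : ∀ p ∈ t, p.Prime := by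
    intro p hp
    rcases mem_union.1 hp with h | h
    · exact (mem_filter.1 h).2
    · obtain ⟨i, _, rfl⟩ := mem_image.1 h
      exact hQp i
  have hpair : Set.Pairwise (t : Set ℕ) (Function.onFun Nat.Coprime fun p => p) := by
    intro p hp q hq hpq
    exact (Nat.coprime_primes (htp p hp) (htp q hq)).2 hpq
  obtain ⟨v, hv⟩ := Nat.chineseRemainderOfFinset a (fun p => p) t
    (fun p hp => (htp p hp).ne_zero) hpair
  obtain ⟨W, hW⟩ : ∃ W, W = ∏ p ∈ t, p := ⟨_, rfl⟩
  have hQv : ∀ i < R, i ∉ H → Q i ∣ v + i := by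
    intro i hi hiH
    have hit : Q i ∈ t := mem_union_right _ (mem_image.2 ⟨i, mem_filter.2 ⟨mem_range.2 hi, hiH⟩, rfl⟩)
    have h1 := hv (Q i) hit
    have h2 : a (Q i) = Q i - i := by
      have h3 := hQlt i
      simp only [ha]
      rw [if_neg (by omega), hQc, Nat.add_sub_cancel_left]
    rw [h2] at h1
    have h3 := h1.add_right i
    have h4 := hQlt i
    rw [show Q i - i + i = Q i by omega] at h3
    exact Nat.modEq_zero_iff_dvd.1 (h3.trans (Nat.modEq_zero_iff_dvd.2 dvd_rfl))
  refine ⟨W, v, ?_, ?_, ?_, ?_⟩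
  · rw [hW]
    exact prod_pos fun p hp => (htp p hp).pos
  · rw [hW]
    unfold primorial
    exact prod_dvd_prod_of_subset _ _ _ subset_union_left
  · intro h hh
    rw [hW]
    apply Nat.Coprime.prod_right
    intro p hp
    rw [Nat.coprime_comm, (htp p hp).coprime_iff_not_dvd]
    intro hd
    rcases mem_union.1 hp with h1 | h1
    · have hle : p ≤ D₀ := by
        have := mem_range.1 (mem_filter.1 h1).1
        omega
      have h2 := hv p hp
      have h3 : a p = b p := by
        simp only [ha]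
        rw [if_pos hle]
      rw [h3] at h2
      have h4 := (h2.add_right h).symm.trans (Nat.modEq_zero_iff_dvd.2 hd)
      exact hb p (htp p hp) h hh (Nat.modEq_zero_iff_dvd.1 h4)
    · obtain ⟨i, hi, rfl⟩ := mem_image.1 h1
      rw [mem_filter, mem_range] at hi
      have h2 := hQv i hi.1 hi.2
      have h3 := hQlt i
      have h4 := hH h hh
      have hne : i ≠ h := fun h => hi.2 (h ▸ hh)
      rcases lt_or_gt_of_ne hne with h6 | h6
      · have h7 : Q i ∣ (v + h) - (v + i) := Nat.dvd_sub hd h2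
        have h8 := Nat.le_of_dvd (by omega) h7
        omega
      · have h7 : Q i ∣ (v + i) - (v + h) := Nat.dvd_sub h2 hd
        have h8 := Nat.le_of_dvd (by omega) h7
        omega
  · intro h hh hno
    have hit : Q h ∈ t := mem_union_right _ (mem_image.2 ⟨h, mem_filter.2 ⟨mem_range.2 hh, hno⟩, rfl⟩)
    exact ⟨Q h, hQp h, hW ▸ dvd_prod_of_mem (fun p => p) hit, hQv h hh hno⟩

end Pool.Agent.Work.MP_bd2dcc_nt.SY
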