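import Pool.Agent.Work.MP_bd2dcc_nt.RG.Main

/-!
# Partition properties of the gaps hold for every syndetic subsequence of the primes
-/

namespace Pool.Agent.Work.MP_bd2dcc_nt.SY

open Finset Pool.Agent.Work.MP_bd2dcc_nt.RG

theorem idx_bound (K : ℕ) (u : ℕ → ℕ) (hK : ∀ n, u (n + 1) ≤ u n + K) (n j : ℕ) :
    u (n + j) ≤ u n + j * K := by
  induction j with
  | zero => simp
  | succ j ih =>
    have := hK (n + j)
    rw [show n + (j + 1) = n + j + 1 by ring]
    have h : (j + 1) * K = j * K + K := by ring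
    omega

theorem idx_first (K : ℕ) (u : ℕ → ℕ) (hu : StrictMono u) (h0 : u 0 < K)
    (hK : ∀ n, u (n + 1) ≤ u n + K) (t : ℕ) : ∃ n, t ≤ u n ∧ u n < t + K := by
  have hex : ∃ n, t ≤ u n := ⟨t, hu.id_le t⟩
  classical
  refine ⟨Nat.find hex, Nat.find_spec hex, ?_⟩
  rcases Nat.eq_zero_or_pos (Nat.find hex) with h | h
  · rw [h]; omega
  · obtain ⟨n, hn⟩ : ∃ n, Nat.find hex = n + 1 := ⟨Nat.find hex - 1, by omega⟩
    have h1 : ¬ t ≤ u n := Nat.find_min hex (by omega)
    rw [hn]
    have := hK n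
    omega

theorem forced (K k m r : ℕ) : ∃ (B κ X₀ : ℕ) (c₀ : ℝ), 0 < c₀ ∧
    ∀ u : ℕ → ℕ, StrictMono u → u 0 < K → (∀ n, u (n + 1) ≤ u n + K) →
    ∀ c : (Fin r → ℕ) → Fin k, ∃ i : Fin k, ∀ X : ℕ, X₀ ≤ X →
      c₀ * X / Real.log X ^ κ ≤ (Set.ncard {t : ℕ | Nat.nth Nat.Prime (u (t + m)) ≤ X ∧
        Nat.nth Nat.Prime (u (t + m)) ≤ Nat.nth Nat.Prime (u t) + B ∧
        ∀ a : Fin (r + 1) → ℕ, StrictMono a → a (Fin.last r) ≤ m →
          c (fun j => Nat.nth Nat.Prime (u (t + a j.succ)) -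
            Nat.nth Nat.Prime (u (t + a j.castSucc))) = i} : ℝ) := by
  classical
  obtain ⟨B, κ, X₀, c₀, hc₀, h⟩ := main k (K * (m + 1)) r
  have hmono : StrictMono (Nat.nth Nat.Prime) := Nat.nth_strictMono Nat.infinite_setOf_prime
  refine ⟨B, κ, X₀, c₀ / (K + 1), by positivity, fun u hu h0 hK c => ?_⟩
  obtain ⟨i, hi⟩ := h c
  refine ⟨i, fun X hX => ?_⟩
  have hcount := hi X hX
  choose φ hφ1 hφ2 using idx_first K u hu h0 hK
  set G : Set ℕ := {t : ℕ | Nat.nth Nat.Prime (u (t + m)) ≤ X ∧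
        Nat.nth Nat.Prime (u (t + m)) ≤ Nat.nth Nat.Prime (u t) + B ∧
        ∀ a : Fin (r + 1) → ℕ, StrictMono a → a (Fin.last r) ≤ m →
          c (fun j => Nat.nth Nat.Prime (u (t + a j.succ)) -
            Nat.nth Nat.Prime (u (t + a j.castSucc))) = i} with hG
  have hGfin : G.Finite := by
    refine (Set.finite_Iic X).subset fun t ht => ?_
    have h1 : Nat.nth Nat.Prime (u (t + m)) ≤ X := ht.1
    have h2 : t + m ≤ Nat.nth Nat.Prime (u (t + m)) :=
      (hu.id_le (t + m)).trans (hmono.id_le _)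
    exact Set.mem_Iic.2 (by omega)
  have hsubset : ∀ t' ∈ goodSet k (K * (m + 1)) r B X c i, φ t' ∈ G := by
    intro t' ht'
    obtain ⟨hg1, hg2, hg3⟩ := ht'
    have hb : ∀ j ≤ m, u (φ t' + j) ≤ t' + K * (m + 1) := by
      intro j hj
      have h1 := idx_bound K u hK (φ t') j
      have h2 := hφ2 t'
      have h3 : j * K ≤ m * K := Nat.mul_le_mul_right K hj
      have h4 : K * (m + 1) = m * K + K := by ring
      omega
    have hlow : ∀ j, t' ≤ u (φ t' + j) := fun j => (hφ1 t').trans (hu.monotone (Nat.le_add_right _ _))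
    refine ⟨(hmono.monotone (hb m le_rfl)).trans hg1, ?_, fun a ha ham => ?_⟩
    · refine (hmono.monotone (hb m le_rfl)).trans (hg2.trans ?_)
      exact Nat.add_le_add_right (hmono.monotone (hφ1 t')) B
    · have hale : ∀ j, a j ≤ m := fun j => (ha.monotone (Fin.le_last j)).trans ham
      have h1 := hg3 (fun j => u (φ t' + a j) - t') (fun x y hxy => by
        have h2 : u (φ t' + a x) < u (φ t' + a y) := hu (Nat.add_lt_add_left (ha hxy) _)
        have h3 := hlow (a x)
        show u (φ t' + a x) - t' < u (φ t' + a y) - t'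
        omega) (by
        have h2 := hb (a (Fin.last r)) (hale _)
        show u (φ t' + a (Fin.last r)) - t' ≤ K * (m + 1)
        omega)
      rw [← h1]
      congr 1
      funext j
      rw [Nat.add_sub_of_le (hlow _), Nat.add_sub_of_le (hlow _)]
  have hgfin : (goodSet k (K * (m + 1)) r B X c i).Finite := by
    refine (Set.finite_Iic X).subset fun t ht => ?_
    have h1 : Nat.nth Nat.Prime (t + K * (m + 1)) ≤ X := ht.1
    have h2 := hmono.id_le (t + K * (m + 1))
    simp only [id] at h2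
    exact Set.mem_Iic.2 (by omega)
  have hK1 : 1 ≤ K := by omega
  have hcard : (goodSet k (K * (m + 1)) r B X c i).ncard ≤ G.ncard * K := by
    rw [Set.ncard_eq_toFinset_card _ hgfin, Set.ncard_eq_toFinset_card _ hGfin]
    refine (?_ : _ ≤ K * #hGfin.toFinset).trans (Nat.mul_comm _ _).le
    refine Finset.card_le_mul_card_image_of_maps_to (f := φ) (fun t' ht' => ?_) K (fun n _ => ?_)
    · rw [Set.Finite.mem_toFinset] at ht' ⊢
      exact hsubset t' ht'
    · have hsub : (hgfin.toFinset.filter fun t' => φ t' = n) ⊆ Finset.Ioc (u n - K) (u n) ∪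
          (if u n < K then {0} else ∅) := by
        intro t' ht'
        rw [mem_filter] at ht'
        have h1 := hφ1 t'
        have h2 := hφ2 t'
        rw [ht'.2] at h1 h2
        rw [mem_union, mem_Ioc]
        rcases Nat.lt_or_ge (u n - K) t' with h3 | h3
        · exact Or.inl ⟨h3, h1⟩
        · have h4 : u n < K ∧ t' = 0 := by omega
          exact Or.inr (by rw [if_pos h4.1, h4.2]; exact mem_singleton_self 0)
      refine (card_le_card hsub).trans ((card_union_le _ _).trans ?_)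
      rw [Nat.card_Ioc]
      split_ifs with h3
      · rw [card_singleton]; omega
      · rw [card_empty]; omega
  have h1 : ((goodSet k (K * (m + 1)) r B X c i).ncard : ℝ) ≤ G.ncard * K := by
    exact_mod_cast hcard
  have h2 : (G.ncard : ℝ) * K ≤ G.ncard * (K + 1) :=
    mul_le_mul_of_nonneg_left (by linarith) (Nat.cast_nonneg _)
  have h3 : c₀ * X / Real.log X ^ κ ≤ G.ncard * ((K : ℝ) + 1) := hcount.trans (h1.trans h2)
  have h4 : c₀ / (K + 1) * X / Real.log X ^ κ = c₀ * X / Real.log X ^ κ / ((K : ℝ) + 1) := by ring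
  rw [h4, div_le_iff₀ (by positivity)]
  exact h3

end Pool.Agent.Work.MP_bd2dcc_nt.SY
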