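import Mathlib

/-!
# The greedy subsequence
-/

set_option autoImplicit false

namespace Pool.Agent.Work.MP_bd2dcc_nt.SY

open Finset

theorem greedy_step (q : ℕ → ℕ) (hq : StrictMono q) (L x : ℕ) (F : Finset ℕ) (hF : #F ≤ L) :
    ∃ i, x < i ∧ i ≤ x + (L + 1) ∧ q i - q x ∉ F ∧ ∀ j, x < j → j < i → q j - q x ∈ F := by
  classical
  have hex : ∃ i, x < i ∧ q i - q x ∉ F := by
    by_contra hcon
    push Not at hcon
    have hsub : (Ioc x (x + (L + 1))).image (fun i => q i - q x) ⊆ F := by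
      intro v hv
      obtain ⟨i, hi, rfl⟩ := mem_image.1 hv
      exact hcon i (mem_Ioc.1 hi).1
    have hcard : #((Ioc x (x + (L + 1))).image (fun i => q i - q x)) = L + 1 := by
      rw [card_image_of_injOn, Nat.card_Ioc]
      · omega
      · intro i hi j hj hij
        rw [coe_Ioc, Set.mem_Ioc] at hi hj
        have h1 := hq hi.1
        have h2 := hq hj.1
        simp only at hij
        exact hq.injective (by omega)
    have := card_le_card hsub
    omega
  refine ⟨Nat.find hex, (Nat.find_spec hex).1, ?_, (Nat.find_spec hex).2, fun j hj1 hj2 => ?_⟩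
  · by_contra hcon
    have hlt : ∀ j ∈ Ioc x (x + (L + 1)), q j - q x ∈ F := by
      intro j hj
      rw [mem_Ioc] at hj
      by_contra h
      exact Nat.find_min hex (m := j) (by omega) ⟨hj.1, h⟩
    have hsub : (Ioc x (x + (L + 1))).image (fun i => q i - q x) ⊆ F := by
      intro v hv
      obtain ⟨i, hi, rfl⟩ := mem_image.1 hv
      exact hlt i hi
    have hcard : #((Ioc x (x + (L + 1))).image (fun i => q i - q x)) = L + 1 := by
      rw [card_image_of_injOn, Nat.card_Ioc]
      · omega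
      · intro i hi j hj hij
        rw [coe_Ioc, Set.mem_Ioc] at hi hj
        have h1 := hq hi.1
        have h2 := hq hj.1
        simp only at hij
        exact hq.injective (by omega)
    have := card_le_card hsub
    omega
  · by_contra h
    exact Nat.find_min hex hj2 ⟨hj1, h⟩

theorem greedy (q : ℕ → ℕ) (hq : StrictMono q) (L : ℕ) (Φ : ℕ → (ℕ → ℕ) → Finset ℕ)
    (hΦ : ∀ n w, #(Φ n w) ≤ L) (hdep : ∀ n w w', (∀ j ≤ n, w j = w' j) → Φ n w = Φ n w') :
    ∃ u : ℕ → ℕ, StrictMono u ∧ u 0 = 0 ∧ ∀ n, u (n + 1) ≤ u n + (L + 1) ∧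
      q (u (n + 1)) - q (u n) ∉ Φ n u ∧
      ∀ i, u n < i → i < u (n + 1) → q i - q (u n) ∈ Φ n u := by
  classical
  choose nx h1 h2 h3 h4 using fun (n : ℕ) (w : ℕ → ℕ) =>
    greedy_step q hq L (w n) (Φ n w) (hΦ n w)
  obtain ⟨H, H0, Hs⟩ : ∃ H : ℕ → ℕ → ℕ, H 0 = (fun _ => 0) ∧
      ∀ n, H (n + 1) = Function.update (H n) (n + 1) (nx n (H n)) :=
    ⟨fun n => Nat.rec (fun _ => 0) (fun n h => Function.update h (n + 1) (nx n h)) n, rfl,
      fun _ => rfl⟩
  have hst : ∀ n j, j ≤ n → H (n + 1) j = H n j := by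
    intro n j hj
    rw [Hs, Function.update_of_ne (by omega)]
  have hu : ∀ n j, j ≤ n → H n j = H j j := by
    intro n
    induction n with
    | zero => intro j hj; rw [Nat.le_zero.1 hj]
    | succ n ih =>
      intro j hj
      rcases Nat.eq_or_lt_of_le hj with rfl | hlt
      · rfl
      · rw [hst n j (by omega), ih j (by omega)]
  have hΦu : ∀ n, Φ n (fun j => H j j) = Φ n (H n) := fun n =>
    hdep n _ _ fun j hj => (hu n j hj).symm
  have hsucc : ∀ n, H (n + 1) (n + 1) = nx n (H n) := by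
    intro n
    rw [Hs, Function.update_self]
  refine ⟨fun n => H n n, ?_, ?_, fun n => ⟨?_, ?_, ?_⟩⟩
  · refine strictMono_nat_of_lt_succ fun n => ?_
    rw [hsucc]
    exact h1 n (H n)
  · simp only
    rw [H0]
  · simp only
    rw [hsucc]
    exact h2 n (H n)
  · simp only
    rw [hsucc, hΦu]
    exact h3 n (H n)
  · intro i hi1 hi2
    simp only at hi1 hi2 ⊢
    rw [hsucc] at hi2
    rw [hΦu]
    exact h4 n (H n) i hi1 hi2

end Pool.Agent.Work.MP_bd2dcc_nt.SY
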