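import Pool.Agent.Work.MP_bd2dcc_nt.SY.Forced
import Pool.Agent.Work.MP_bd2dcc_nt.SY.ScaleA

/-!
# The Maynard-Tao theorem for the consecutive terms of a syndetic subsequence of the primes
-/

set_option autoImplicit false

namespace Pool.Agent.Work.MP_bd2dcc_nt.SY

open Finset

theorem transfer (K : ℕ) (u : ℕ → ℕ) (hu : StrictMono u) (h0 : u 0 < K)
    (hK : ∀ n, u (n + 1) ≤ u n + K) (G : Finset ℕ) (A : Set ℕ) (hA : A.Finite)
    (hG : ∀ t ∈ G, ∀ n, t ≤ u n → u n < t + K → n ∈ A) : #G ≤ A.ncard * K := by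
  classical
  choose φ hφ1 hφ2 using idx_first K u hu h0 hK
  rw [Set.ncard_eq_toFinset_card _ hA]
  refine (?_ : _ ≤ K * #hA.toFinset).trans (Nat.mul_comm _ _).le
  refine Finset.card_le_mul_card_image_of_maps_to (f := φ) (fun t' ht' => ?_) K (fun n _ => ?_)
  · rw [Set.Finite.mem_toFinset]
    exact hG t' ht' _ (hφ1 t') (hφ2 t')
  · have hsub : (G.filter fun t' => φ t' = n) ⊆ Finset.Ioc (u n - K) (u n) ∪
        (if u n < K then {0} else ∅) := by
      intro t' ht'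
      rw [mem_filter] at ht'
      have h1 := hφ1 t'
      have h2 := hφ2 t'
      rw [ht'.2] at h1 h2
      rw [mem_union, mem_Ioc]
      rcases Nat.lt_or_ge (u n - K) t' with h3 | h3
      · exact Or.inl ⟨h3, h1⟩
      · have h4 : u n < K ∧ t' = 0 := by omega
        exact Or.inr (by rw [if_pos h4.1, h4.2]; exact mem_singleton_self 0)
    refine (card_le_card hsub).trans ((card_union_le _ _).trans ?_)
    rw [Nat.card_Ioc]
    split_ifs with h3
    · rw [card_singleton]; omega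
    · rw [card_empty]; omega

theorem mt_syn (K m : ℕ) : ∃ k : ℕ, 0 < k ∧ ∀ H : Finset ℕ, #H = k → Adm H →
    ∃ (X₀ : ℕ) (c₀ : ℝ), 0 < c₀ ∧
    ∀ u : ℕ → ℕ, StrictMono u → u 0 < K → (∀ n, u (n + 1) ≤ u n + K) → ∀ X : ℕ, X₀ ≤ X →
      c₀ * X / Real.log X ^ k ≤ (Set.ncard {t : ℕ | Nat.nth Nat.Prime (u (t + m)) ≤ X ∧
        ∃ n : ℕ, ∀ i ≤ m, ∃ h ∈ H, Nat.nth Nat.Prime (u (t + i)) = n + h} : ℝ) := by
  classical
  obtain ⟨k, hk, hscale⟩ := scaleA (K * (m + 1))
  have hmono : StrictMono (Nat.nth Nat.Prime) := Nat.nth_strictMono Nat.infinite_setOf_prime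
  refine ⟨k, hk, fun H hH hadm => ?_⟩
  obtain ⟨C, X₀, c₁, hc₁, hC, hG⟩ := hscale H hH hadm
  have hC0 : (0 : ℝ) < C := by exact_mod_cast hC
  refine ⟨C * (X₀ + 3), c₁ / (2 * C) / (K + 1), by positivity, fun u hu h0 hK X hX => ?_⟩
  obtain ⟨x, hx⟩ : ∃ x, x = X / C := ⟨_, rfl⟩
  have hxX : C * x ≤ X := by rw [hx]; exact Nat.mul_div_le X C
  have hxge : X₀ + 3 ≤ x := by
    rw [hx, Nat.le_div_iff_mul_le hC]
    have : (X₀ + 3) * C = C * (X₀ + 3) := Nat.mul_comm _ _
    omega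
  have hlt : X < C * (x + 1) := by
    have := Nat.lt_mul_div_succ X hC
    rw [hx]
    exact this
  have hx2 : (X : ℝ) ≤ 2 * C * x := by
    have h1 : X ≤ 2 * C * x := by
      have h2 : C ≤ C * x := Nat.le_mul_of_pos_right C (by omega)
      have h3 : C * (x + 1) = C * x + C := by ring
      have h4 : 2 * C * x = C * x + C * x := by ring
      omega
    exact_mod_cast h1
  have hx3 : (3 : ℝ) ≤ x := by exact_mod_cast (by omega : 3 ≤ x)
  have hx0 : (0 : ℝ) < x := by linarith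
  have hxle : (x : ℝ) ≤ X := by
    have : x ≤ X := le_trans (Nat.le_mul_of_pos_left x hC) hxX
    exact_mod_cast this
  have hlx : 0 < Real.log x := Real.log_pos (by linarith)
  have hlX : Real.log x ≤ Real.log X := Real.log_le_log hx0 hxle
  obtain ⟨G, hGc, hGt⟩ := hG x (by omega)
  set A : Set ℕ := {t : ℕ | Nat.nth Nat.Prime (u (t + m)) ≤ X ∧
        ∃ n : ℕ, ∀ i ≤ m, ∃ h ∈ H, Nat.nth Nat.Prime (u (t + i)) = n + h} with hA
  have hAfin : A.Finite := by
    refine (Set.finite_Iic X).subset fun t ht => ?_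
    have h1 : Nat.nth Nat.Prime (u (t + m)) ≤ X := ht.1
    have h2 : t + m ≤ Nat.nth Nat.Prime (u (t + m)) :=
      (hu.id_le (t + m)).trans (hmono.id_le _)
    exact Set.mem_Iic.2 (by omega)
  have hcard := transfer K u hu h0 hK G A hAfin (fun t ht n hn1 hn2 => by
    obtain ⟨hg1, n₀, hg2⟩ := hGt t ht
    have hb : ∀ j ≤ m, u (n + j) ≤ t + K * (m + 1) := by
      intro j hj
      have h1 := idx_bound K u hK n j
      have h3 : j * K ≤ m * K := Nat.mul_le_mul_right K hj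
      have h4 : K * (m + 1) = m * K + K := by ring
      omega
    refine ⟨(hmono.monotone (hb m le_rfl)).trans (hg1.trans hxX), n₀, fun i hi => ?_⟩
    have h1 := hb i hi
    have h2 : u n ≤ u (n + i) := hu.monotone (Nat.le_add_right _ _)
    obtain ⟨h, hh, he⟩ := hg2 (u (n + i) - t) (by omega)
    exact ⟨h, hh, by rw [← he]; congr 1; omega⟩)
  have h1 : (#G : ℝ) ≤ A.ncard * K := by exact_mod_cast hcard
  have h2 : (A.ncard : ℝ) * K ≤ A.ncard * (K + 1) :=
    mul_le_mul_of_nonneg_left (by linarith) (Nat.cast_nonneg _)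
  have h3 : c₁ / (2 * C) * X / Real.log X ^ k ≤ A.ncard * ((K : ℝ) + 1) := by
    refine le_trans ?_ (hGc.trans (h1.trans h2))
    have h4 : c₁ / (2 * C) * X ≤ c₁ * x := by
      rw [div_mul_eq_mul_div, div_le_iff₀ (by positivity)]
      calc c₁ * X ≤ c₁ * (2 * C * x) := mul_le_mul_of_nonneg_left hx2 hc₁.le
        _ = c₁ * x * (2 * C) := by ring
    have h5 : Real.log x ^ k ≤ Real.log X ^ k := pow_le_pow_left₀ hlx.le hlX k
    exact div_le_div₀ (by positivity) h4 (by positivity) h5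
  have h4 : c₁ / (2 * C) / (K + 1) * X / Real.log X ^ k =
      c₁ / (2 * C) * X / Real.log X ^ k / ((K : ℝ) + 1) := by ring
  rw [h4, div_le_iff₀ (by positivity)]
  exact h3

end Pool.Agent.Work.MP_bd2dcc_nt.SY
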