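import Mathlib

/-!
# Elementary facts for the sieve bound for tuples
-/

set_option autoImplicit false

namespace Pool.Agent.Work.MP_bd2dcc_nt.SY

open Finset

theorem prod_ge_card (E : Finset ℕ) : (∀ p ∈ E, 2 ≤ p) →
    1 / ((#E : ℝ) + 1) ≤ ∏ p ∈ E, (1 - (1 : ℝ) / p) := by
  induction E using Finset.induction_on_max with
  | empty => intro _; simp
  | insert m E hm ih =>
    intro hE
    have hmE : m ∉ E := fun h => lt_irrefl _ (hm m h)
    rw [prod_insert hmE, card_insert_of_notMem hmE]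
    have ih' := ih fun p hp => hE p (mem_insert_of_mem hp)
    have hcard : #E + 2 ≤ m := by
      have hsub : E ⊆ Ico 2 m := fun p hp => mem_Ico.2 ⟨hE p (mem_insert_of_mem hp), hm p hp⟩
      have h1 := card_le_card hsub
      rw [Nat.card_Ico] at h1
      have := hE m (mem_insert_self _ _)
      omega
    have hm' : ((#E : ℝ) + 2) ≤ m := by exact_mod_cast hcard
    have h1 : ((#E : ℝ) + 1) / (#E + 2) ≤ 1 - 1 / (m : ℝ) := by
      rw [div_le_iff₀ (by positivity)]
      have h2 : 1 / (m : ℝ) ≤ 1 / (#E + 2) := one_div_le_one_div_of_le (by positivity) hm'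
      have e : (1 / ((#E : ℝ) + 2)) * (#E + 2) = 1 := by field_simp
      have h3 := mul_le_mul_of_nonneg_right h2 (show (0 : ℝ) ≤ #E + 2 by positivity)
      linarith
    push_cast
    calc 1 / ((#E : ℝ) + 1 + 1) = ((#E : ℝ) + 1) / (#E + 2) * (1 / (#E + 1)) := by
          field_simp; ring
      _ ≤ (1 - 1 / (m : ℝ)) * ∏ p ∈ E, (1 - (1 : ℝ) / p) :=
          mul_le_mul h1 ih' (by positivity) (le_trans (by positivity) h1)

theorem card_pf_le {n : ℕ} (hn : 0 < n) : #n.primeFactors ≤ Nat.log 2 n := by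
  have h : 2 ^ #n.primeFactors ≤ n := by
    calc 2 ^ #n.primeFactors = ∏ _p ∈ n.primeFactors, 2 := by rw [prod_const]
      _ ≤ ∏ p ∈ n.primeFactors, p :=
          prod_le_prod' fun p hp => (Nat.prime_of_mem_primeFactors hp).two_le
      _ ≤ n := Nat.le_of_dvd hn (Nat.prod_primeFactors_dvd n)
  exact Nat.le_log_of_pow_le (by norm_num) h

theorem card_pf_le_real {n : ℕ} (hn : 0 < n) {y : ℝ} (hy : 1 ≤ y) (hny : (n : ℝ) ≤ y ^ 3) :
    (#n.primeFactors : ℝ) ≤ 5 * Real.log y := by
  have h1 : (#n.primeFactors : ℝ) ≤ (Nat.log 2 n : ℝ) := by exact_mod_cast card_pf_le hn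
  have h2 : (Nat.log 2 n : ℝ) * Real.log 2 ≤ Real.log n := by
    rw [← Real.log_pow]
    apply Real.log_le_log (by positivity)
    exact_mod_cast Nat.pow_log_le_self 2 hn.ne'
  have h3 : Real.log n ≤ 3 * Real.log y := by
    have h := Real.log_le_log (by exact_mod_cast hn) hny
    rw [Real.log_pow] at h
    exact_mod_cast h
  have h4 := Real.log_two_gt_d9
  have h5 : (0 : ℝ) ≤ Nat.log 2 n := Nat.cast_nonneg _
  have h6 := Real.log_nonneg hy
  nlinarith

/-- the residues to be sifted out -/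
def AA (H : Finset ℕ) (p : ℕ) : Finset ℕ := (range p).filter fun a => ∃ h ∈ H, p ∣ a + h

theorem AA_sub (H : Finset ℕ) (p : ℕ) : AA H p ⊆ range p := filter_subset _ _

theorem AA_card {H : Finset ℕ} {p : ℕ} (hp : 0 < p)
    (hinj : ∀ h ∈ H, ∀ h' ∈ H, h % p = h' % p → h = h') : #(AA H p) = #H := by
  have key : ∀ a h : ℕ, a < p → (p ∣ a + h ↔ a = (p - h % p) % p) := by
    intro a h ha
    have hr : h % p < p := Nat.mod_lt _ hp
    have e1 : p ∣ a + h ↔ p ∣ a + h % p := by
      have e2 : a + h = (a + h % p) + p * (h / p) := by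
        have := Nat.mod_add_div h p
        omega
      rw [e2]
      exact Nat.dvd_add_left (Nat.dvd_mul_right p _)
    rw [e1]
    rcases Nat.eq_zero_or_pos (h % p) with h0 | h0
    · rw [h0, Nat.add_zero, Nat.sub_zero, Nat.mod_self]
      constructor
      · intro hd
        exact Nat.eq_zero_of_dvd_of_lt hd ha
      · rintro rfl
        exact dvd_zero p
    · rw [Nat.mod_eq_of_lt (show p - h % p < p by omega)]
      constructor
      · rintro ⟨c, hc⟩
        have hc1 : c = 1 := by
          have h2 : 0 < c := by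
            rcases Nat.eq_zero_or_pos c with h3 | h3
            · rw [h3, Nat.mul_zero] at hc; omega
            · exact h3
          have h3 : c < 2 := by
            by_contra h4
            have : p * 2 ≤ p * c := Nat.mul_le_mul_left p (by omega)
            omega
          omega
        rw [hc1, Nat.mul_one] at hc
        omega
      · intro h2
        exact ⟨1, by omega⟩
  have himg : AA H p = H.image (fun h => (p - h % p) % p) := by
    ext a
    rw [AA, mem_filter, mem_range, mem_image]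
    constructor
    · rintro ⟨ha, h, hh, hd⟩
      exact ⟨h, hh, ((key a h ha).1 hd).symm⟩
    · rintro ⟨h, hh, rfl⟩
      have ha : (p - h % p) % p < p := Nat.mod_lt _ hp
      exact ⟨ha, h, hh, (key _ h ha).2 rfl⟩
  rw [himg]
  apply card_image_of_injOn
  intro h hh h' hh' heq
  simp only at heq
  apply hinj h hh h' hh'
  have hr : h % p < p := Nat.mod_lt _ hp
  have hr' : h' % p < p := Nat.mod_lt _ hp
  rcases Nat.eq_zero_or_pos (h % p) with h0 | h0 <;> rcases Nat.eq_zero_or_pos (h' % p) with h1 | h1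
  · rw [h0, h1]
  · rw [h0, Nat.sub_zero, Nat.mod_self, Nat.mod_eq_of_lt (show p - h' % p < p by omega)] at heq
    omega
  · rw [h1, Nat.sub_zero, Nat.mod_self, Nat.mod_eq_of_lt (show p - h % p < p by omega)] at heq
    omega
  · rw [Nat.mod_eq_of_lt (show p - h % p < p by omega),
      Nat.mod_eq_of_lt (show p - h' % p < p by omega)] at heq
    omega

/-- the primes for which two elements of `H` coincide -/
def bad (H : Finset ℕ) : Finset ℕ :=
  (H ×ˢ H).biUnion fun x => (x.2 - x.1).primeFactors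

theorem mem_bad {H : Finset ℕ} {p : ℕ} (hp : p.Prime) {h h' : ℕ} (hh : h ∈ H) (hh' : h' ∈ H)
    (hne : h ≠ h') (heq : h % p = h' % p) : p ∈ bad H := by
  rw [bad, mem_biUnion]
  rcases Nat.lt_or_gt_of_ne hne with hlt | hlt
  · refine ⟨(h, h'), mem_product.2 ⟨hh, hh'⟩, ?_⟩
    rw [Nat.mem_primeFactors]
    exact ⟨hp, (Nat.modEq_iff_dvd' hlt.le).1 heq, by simp only; omega⟩
  · refine ⟨(h', h), mem_product.2 ⟨hh', hh⟩, ?_⟩
    rw [Nat.mem_primeFactors]
    exact ⟨hp, (Nat.modEq_iff_dvd' hlt.le).1 heq.symm, by simp only; omega⟩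

theorem card_bad {H : Finset ℕ} {y : ℝ} (hy : 1 ≤ y) (hH : ∀ h ∈ H, (h : ℝ) ≤ y ^ 3) :
    (#(bad H) : ℝ) ≤ (#H : ℝ) ^ 2 * (5 * Real.log y) := by
  have h1 : (#(bad H) : ℝ) ≤ ∑ x ∈ H ×ˢ H, (#(x.2 - x.1).primeFactors : ℝ) := by
    exact_mod_cast card_biUnion_le
  refine h1.trans ?_
  have h2 : ∀ x ∈ H ×ˢ H, (#(x.2 - x.1).primeFactors : ℝ) ≤ 5 * Real.log y := by
    intro x hx
    rcases Nat.eq_zero_or_pos (x.2 - x.1) with h0 | h0
    · rw [h0, Nat.primeFactors_zero, card_empty, Nat.cast_zero]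
      have := Real.log_nonneg hy
      linarith
    · apply card_pf_le_real h0 hy
      refine le_trans ?_ (hH x.2 (mem_product.1 hx).2)
      exact_mod_cast Nat.sub_le _ _
  refine (sum_le_sum h2).trans ?_
  rw [sum_const, nsmul_eq_mul, card_product]
  push_cast
  rw [← pow_two]

end Pool.Agent.Work.MP_bd2dcc_nt.SY
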