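import Pool.Agent.Work.MP_43ce8a_nt.D.SvFL
import Pool.Agent.Work.MP_c971ef_nt.LS.Mert
import Pool.Agent.Work.MP_f473e4_nt.SCrt
import Pool.Agent.Work.MP_bd2dcc_nt.SY.TupA

/-!
# An upper bound for the number of prime tuples, uniform in the tuple
-/

set_option autoImplicit false

namespace Pool.Agent.Work.MP_bd2dcc_nt.SY

open Finset

/-- the sifting primes -/
noncomputable def sift (z k : ℕ) (H : Finset ℕ) : Finset ℕ := by
  classical
  exact (PoolLS.PP z).filter fun p => 2 * k < p ∧ p ∉ bad H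

theorem mem_sift {z k : ℕ} {H : Finset ℕ} {p : ℕ} :
    p ∈ sift z k H ↔ (p < z ∧ p.Prime ∧ p ≠ 2) ∧ 2 * k < p ∧ p ∉ bad H := by
  classical
  rw [sift, mem_filter, PoolLS.PP, mem_filter, mem_range]

theorem AA_card_sift {z k : ℕ} {H : Finset ℕ} {p : ℕ} (hp : p ∈ sift z k H) :
    #(AA H p) = #H := by
  obtain ⟨⟨_, h2, _⟩, _, h4⟩ := mem_sift.1 hp
  refine AA_card h2.pos fun h hh h' hh' heq => ?_
  by_contra hne
  exact h4 (mem_bad h2 hh hh' hne heq)

/-- the product over the sifting primes -/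
theorem prod_sift {k : ℕ} (hk : 1 ≤ k) {C₀ : ℝ} {z : ℕ} (hz : 3 ≤ z)
    (hC : ∏ p ∈ PoolLS.PP z, (1 - (1 : ℝ) / p) ≤ C₀ / Real.log z) {H : Finset ℕ}
    {y : ℝ} (hy : 1 ≤ y) (hH : ∀ h ∈ H, (h : ℝ) ≤ y ^ 3) (hcard : #H = k) :
    ∏ p ∈ sift z k H, (1 - (k : ℝ) / p) ≤
      (C₀ / Real.log z * (2 * k + 2 + k ^ 2 * (5 * Real.log y))) ^ k := by
  classical
  have hk0 : (0 : ℝ) < k := by exact_mod_cast hk
  have hlz : 0 < Real.log z := Real.log_pos (by exact_mod_cast (by omega : 1 < z))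
  have hsub : sift z k H ⊆ PoolLS.PP z := by
    rw [sift]; exact filter_subset _ _
  have hfac : ∀ p ∈ PoolLS.PP z, (0 : ℝ) < 1 - 1 / p := by
    intro p hp
    rw [PoolLS.PP, mem_filter] at hp
    have h2 : (2 : ℝ) ≤ p := by exact_mod_cast hp.2.1.two_le
    have : 1 / (p : ℝ) ≤ 1 / 2 := one_div_le_one_div_of_le (by norm_num) h2
    linarith
  have h1 : ∏ p ∈ sift z k H, (1 - (k : ℝ) / p) ≤ (∏ p ∈ sift z k H, (1 - (1 : ℝ) / p)) ^ k := by
    rw [← prod_pow]
    refine prod_le_prod (fun p hp => ?_) (fun p hp => ?_)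
    · obtain ⟨⟨_, h2, _⟩, h3, _⟩ := mem_sift.1 hp
      have h4 : (2 : ℝ) * k < p := by exact_mod_cast h3
      have h5 : (k : ℝ) / p ≤ 1 := by
        rw [div_le_one (by linarith)]
        linarith
      linarith
    · have h2 : (-2 : ℝ) ≤ -(1 / p) := by
        have := hfac p (hsub hp)
        linarith
      have h3 := one_add_mul_le_pow h2 k
      have e1 : 1 + (k : ℝ) * (-(1 / p)) = 1 - k / p := by ring
      have e2 : 1 + -(1 / (p : ℝ)) = 1 - 1 / p := by ring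
      rw [e1, e2] at h3
      exact h3
  have hE : #(PoolLS.PP z \ sift z k H) ≤ 2 * k + 1 + #(bad H) := by
    have h2 : PoolLS.PP z \ sift z k H ⊆ range (2 * k + 1) ∪ bad H := by
      intro p hp
      rw [mem_sdiff] at hp
      rw [mem_union, mem_range]
      by_contra hcon
      push Not at hcon
      apply hp.2
      have h3 := hp.1
      rw [PoolLS.PP, mem_filter, mem_range] at h3
      exact mem_sift.2 ⟨h3, by omega, hcon.2⟩
    refine (card_le_card h2).trans ((card_union_le _ _).trans ?_)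
    rw [card_range]
  have h2 : (∏ p ∈ sift z k H, (1 - (1 : ℝ) / p)) *
      ∏ p ∈ PoolLS.PP z \ sift z k H, (1 - (1 : ℝ) / p) = ∏ p ∈ PoolLS.PP z, (1 - (1 : ℝ) / p) := by
    rw [mul_comm]
    exact prod_sdiff hsub
  have h3 := prod_ge_card (PoolLS.PP z \ sift z k H) (fun p hp => by
    rw [mem_sdiff, PoolLS.PP, mem_filter] at hp
    exact hp.1.2.1.two_le)
  have hS0 : 0 ≤ ∏ p ∈ sift z k H, (1 - (1 : ℝ) / p) :=
    prod_nonneg fun p hp => (hfac p (hsub hp)).le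
  have hN : ((#(PoolLS.PP z \ sift z k H) : ℝ) + 1) ≤ 2 * k + 2 + k ^ 2 * (5 * Real.log y) := by
    have h4 : (#(PoolLS.PP z \ sift z k H) : ℝ) ≤ 2 * k + 1 + #(bad H) := by exact_mod_cast hE
    have h5 := card_bad hy hH
    rw [hcard] at h5
    linarith
  have h4 : ∏ p ∈ sift z k H, (1 - (1 : ℝ) / p) ≤
      C₀ / Real.log z * (2 * k + 2 + k ^ 2 * (5 * Real.log y)) := by
    have h5 : (∏ p ∈ sift z k H, (1 - (1 : ℝ) / p)) * (1 / ((#(PoolLS.PP z \ sift z k H) : ℝ) + 1)) ≤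
        C₀ / Real.log z := by
      calc _ ≤ (∏ p ∈ sift z k H, (1 - (1 : ℝ) / p)) *
            ∏ p ∈ PoolLS.PP z \ sift z k H, (1 - (1 : ℝ) / p) := mul_le_mul_of_nonneg_left h3 hS0
        _ = ∏ p ∈ PoolLS.PP z, (1 - (1 : ℝ) / p) := h2
        _ ≤ _ := hC
    have h6 : (0 : ℝ) < (#(PoolLS.PP z \ sift z k H) : ℝ) + 1 := by positivity
    rw [mul_one_div, div_le_iff₀ h6] at h5
    have hP0 : 0 ≤ C₀ / Real.log z := by
      refine le_trans (prod_nonneg fun p hp => (hfac p hp).le) hC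
    exact h5.trans (mul_le_mul_of_nonneg_left hN hP0)
  exact h1.trans (pow_le_pow_left₀ hS0 h4 k)

/-- the sieve with the parameters left open -/
theorem tup_raw (k : ℕ) (hk : 1 ≤ k) : ∃ (C : ℝ) (e : ℕ), 0 < C ∧ ∀ (z X : ℕ), 3 ≤ z →
    ∀ (y : ℝ), 1 ≤ y → ∀ H : Finset ℕ, #H = k → (∀ h ∈ H, (h : ℝ) ≤ y ^ 3) →
    (#((range (X + 1)).filter (fun n => ∀ h ∈ H, (n + h).Prime)) : ℝ) ≤
      C * (X + 1) * ((1 + Real.log y) / Real.log z) ^ k + (z : ℝ) ^ e := by
  classical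
  obtain ⟨b, hb⟩ := Pool.Agent.Work.MP_43ce8a_nt.D.sieve_fl (8 * k) (by positivity)
  obtain ⟨C₀, hC₀, hprod⟩ := PoolLS.prod_up
  have hk0 : (0 : ℝ) < k := by exact_mod_cast hk
  refine ⟨2 * (C₀ * (2 * k + 2 + 5 * k ^ 2)) ^ k, 2 * (4 * b + 10) + 3, by positivity,
    fun z X hz y hy H hcard hH => ?_⟩
  have hz0 : (0 : ℝ) < z := by exact_mod_cast (by omega : 0 < z)
  have hz3 : (3 : ℝ) ≤ z := by exact_mod_cast hz
  have hlz : 0 < Real.log z := Real.log_pos (by linarith)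
  have hly : 0 ≤ Real.log y := Real.log_nonneg hy
  have hmem : ∀ p ∈ sift z k H, p.Prime ∧ p < z ∧ 2 * k < p := fun p hp => by
    obtain ⟨⟨h1, h2, _⟩, h3, _⟩ := mem_sift.1 hp
    exact ⟨h2, h1, h3⟩
  have hfl := hb b le_rfl z (sift z k H) (fun p => (k : ℝ) / p) (by omega)
    (fun p hp => ⟨(hmem p hp).1, (hmem p hp).2.1⟩)
    (fun p hp => by
      have h1 : (2 : ℝ) * k < p := by exact_mod_cast (hmem p hp).2.2
      refine ⟨by positivity, ?_⟩
      rw [div_le_iff₀ (by linarith)]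
      linarith)
    (fun y' hy' => by
      have h1 := PoolLS.win z y' hy'
      calc ∑ p ∈ (sift z k H).filter (fun p : ℕ => y' ≤ (p : ℝ) ∧ (p : ℝ) < y' ^ 2), (k : ℝ) / p
          ≤ ∑ p ∈ (PoolLS.PP z).filter (fun p : ℕ => y' ≤ (p : ℝ) ∧ (p : ℝ) < y' ^ 2), (k : ℝ) / p := by
            refine sum_le_sum_of_subset_of_nonneg ?_ (fun p _ _ => by positivity)
            exact filter_subset_filter _ (by rw [sift]; exact filter_subset _ _)
        _ = k * ∑ p ∈ (PoolLS.PP z).filter (fun p : ℕ => y' ≤ (p : ℝ) ∧ (p : ℝ) < y' ^ 2),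
              (1 : ℝ) / p := by
            rw [mul_sum]
            exact sum_congr rfl fun p _ => by ring
        _ ≤ k * 8 := mul_le_mul_of_nonneg_left h1 hk0.le
        _ = 8 * k := mul_comm _ _)
    (range (X + 1)) (fun n p => n % p ∈ AA H p) (X + 1) ((z : ℝ) ^ (4 * b + 10)) (by positivity)
    (by positivity) (fun d hd hdz => by
      have h1 := Pool.Agent.Work.MP_f473e4_nt.crt_count (X + 1) d
        (fun p hp => (hmem p (hd hp)).1) 1 0 one_pos one_pos (fun p _ => Nat.coprime_one_left p)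
        (AA H) (AA_sub H)
      have h2 : (range (X + 1)).filter (fun m => m % 1 = 0 ∧ ∀ p ∈ d, m % p ∈ AA H p) =
          (range (X + 1)).filter (fun m => ∀ p ∈ d, m % p ∈ AA H p) := by
        refine filter_congr fun m _ => ?_
        rw [Nat.mod_one]
        exact ⟨fun h => h.2, fun h => ⟨rfl, h⟩⟩
      rw [h2] at h1
      have h3 : ∏ p ∈ d, ((#(AA H p) : ℝ) / p) = ∏ p ∈ d, (k : ℝ) / p :=
        prod_congr rfl fun p hp => by rw [AA_card_sift (hd hp), hcard]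
      have h4 : ∏ p ∈ d, (#(AA H p) : ℝ) ≤ (z : ℝ) ^ (4 * b + 10) := by
        refine le_trans ?_ hdz
        push_cast
        refine prod_le_prod (fun p _ => Nat.cast_nonneg _) (fun p hp => ?_)
        rw [AA_card_sift (hd hp), hcard]
        have h5 := (hmem p (hd hp)).2.2
        exact_mod_cast (by omega : k ≤ p)
      rw [h3] at h1
      push_cast at h1
      rw [div_one] at h1
      convert h1.trans h4
      rfl)
  have hps := prod_sift hk hz (hprod z hz) hy hH hcard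
  -- the set
  have hset : (range (X + 1)).filter (fun n => ∀ h ∈ H, (n + h).Prime) ⊆
      range z ∪ (range (X + 1)).filter (fun n => ∀ p ∈ sift z k H, ¬ n % p ∈ AA H p) := by
    intro n hn
    rw [mem_filter] at hn
    rw [mem_union, mem_range, mem_filter]
    rcases Nat.lt_or_ge n z with hnz | hnz
    · exact Or.inl hnz
    · refine Or.inr ⟨hn.1, fun p hp hA => ?_⟩
      rw [AA, mem_filter] at hA
      obtain ⟨_, h, hh, hd⟩ := hA
      have h1 : p ∣ n + h := by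
        have h2 : n + h = (n % p + h) + p * (n / p) := by
          have := Nat.mod_add_div n p
          omega
        rw [h2]
        exact dvd_add hd (Nat.dvd_mul_right p _)
      have h2 := hn.2 h hh
      rcases (Nat.dvd_prime h2).1 h1 with h3 | h3
      · exact (hmem p hp).1.one_lt.ne' h3
      · have := (hmem p hp).2.1
        omega
  have hle1 : (#((range (X + 1)).filter (fun n => ∀ h ∈ H, (n + h).Prime)) : ℝ) ≤
      z + #((range (X + 1)).filter (fun n => ∀ p ∈ sift z k H, ¬ n % p ∈ AA H p)) := by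
    have h1 := (card_le_card hset).trans (card_union_le _ _)
    rw [card_range] at h1
    exact_mod_cast h1
  set Pr : ℝ := ∏ p ∈ sift z k H, (1 - (k : ℝ) / p) with hPr
  have hPr0 : 0 ≤ Pr := prod_nonneg fun p hp => by
    have h1 : (2 : ℝ) * k < p := by exact_mod_cast (hmem p hp).2.2
    have h5 : (k : ℝ) / p ≤ 1 := by
      rw [div_le_one (by linarith)]
      linarith
    linarith
  have hexp : Real.exp (-(b : ℝ)) ≤ 1 := Real.exp_le_one_iff.2 (by
    have : (0 : ℝ) ≤ b := Nat.cast_nonneg _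
    linarith)
  have hle2 : (#((range (X + 1)).filter (fun n => ∀ p ∈ sift z k H, ¬ n % p ∈ AA H p)) : ℝ) ≤
      2 * ((X + 1) * Pr) + (1 + z) * (z : ℝ) ^ (4 * b + 10) * (z : ℝ) ^ (4 * b + 10) := by
    have h1 : (#((range (X + 1)).filter (fun n => ∀ p ∈ sift z k H, ¬ n % p ∈ AA H p)) : ℝ) -
        (X + 1) * Pr ≤ Real.exp (-(b : ℝ)) * ((X + 1) * Pr) +
          (1 + z) * (z : ℝ) ^ (4 * b + 10) * (z : ℝ) ^ (4 * b + 10) := by
      have h0 := (abs_le.1 hfl).2
      convert h0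
      rfl
    have h2 : 0 ≤ ((X : ℝ) + 1) * Pr := by positivity
    have h3 := mul_le_mul_of_nonneg_right hexp h2
    linarith
  have hPr2 : Pr ≤ (C₀ * (2 * k + 2 + 5 * k ^ 2)) ^ k * ((1 + Real.log y) / Real.log z) ^ k := by
    rw [← mul_pow]
    refine hps.trans (pow_le_pow_left₀ (by positivity) ?_ k)
    have h1 : (2 : ℝ) * k + 2 + k ^ 2 * (5 * Real.log y) ≤
        (2 * k + 2 + 5 * k ^ 2) * (1 + Real.log y) := by nlinarith [mul_nonneg hk0.le hly]
    calc C₀ / Real.log z * (2 * k + 2 + k ^ 2 * (5 * Real.log y))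
        ≤ C₀ / Real.log z * ((2 * k + 2 + 5 * k ^ 2) * (1 + Real.log y)) :=
          mul_le_mul_of_nonneg_left h1 (by positivity)
      _ = C₀ * (2 * k + 2 + 5 * k ^ 2) * ((1 + Real.log y) / Real.log z) := by ring
  have hz1 : (z : ℝ) + (1 + z) * (z : ℝ) ^ (4 * b + 10) * (z : ℝ) ^ (4 * b + 10) ≤
      (z : ℝ) ^ (2 * (4 * b + 10) + 3) := by
    have h1 : (1 : ℝ) ≤ (z : ℝ) ^ (4 * b + 10) := one_le_pow₀ (by linarith)
    have e1 : (z : ℝ) ^ (2 * (4 * b + 10) + 3) =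
        (z : ℝ) ^ (4 * b + 10) * (z : ℝ) ^ (4 * b + 10) * z ^ 3 := by ring
    rw [e1]
    have h2 : (1 : ℝ) ≤ (z : ℝ) ^ (4 * b + 10) * (z : ℝ) ^ (4 * b + 10) := one_le_mul_of_one_le_of_one_le h1 h1
    have h3 : (z : ℝ) + (1 + z) ≤ z ^ 3 := by nlinarith [sq_nonneg ((z : ℝ) - 1)]
    have h4 : (z : ℝ) ≤ z * ((z : ℝ) ^ (4 * b + 10) * (z : ℝ) ^ (4 * b + 10)) :=
      le_mul_of_one_le_right hz0.le h2
    have h5 := mul_le_mul_of_nonneg_left h3 (show (0 : ℝ) ≤ (z : ℝ) ^ (4 * b + 10) * (z : ℝ) ^ (4 * b + 10) by positivity)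
    linarith
  have h7 : (0 : ℝ) ≤ X + 1 := by positivity
  have h8 := mul_le_mul_of_nonneg_left hPr2 h7
  calc (#((range (X + 1)).filter (fun n => ∀ h ∈ H, (n + h).Prime)) : ℝ)
      ≤ 2 * ((X + 1) * Pr) + (z + (1 + z) * (z : ℝ) ^ (4 * b + 10) * (z : ℝ) ^ (4 * b + 10)) := by
        linarith
    _ ≤ 2 * ((X + 1) * ((C₀ * (2 * k + 2 + 5 * k ^ 2)) ^ k *
          ((1 + Real.log y) / Real.log z) ^ k)) + (z : ℝ) ^ (2 * (4 * b + 10) + 3) := by
        linarith
    _ = _ := by ring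

end Pool.Agent.Work.MP_bd2dcc_nt.SY
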